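import Pool.Agent.Helper99.MKV.GoalsC

/-!
# Packet MKV INC: increments of the functionals in one step
-/

set_option autoImplicit false

open Finset

namespace Pool.Agent.Helper31.MKV

open Pool.Agent.Helper99.MKV Pool.Agent.Helper99.EXC Pool.Agent.Helper99.ERW

theorem key {E ι : Type} [Fintype ι] (U : Sys E ι) (t : MSt E) (i : ι) (e : Dir 2)
    (g : Site 2 → E → ℝ) (D : Finset (Site 2)) (w : Site 2 → ℝ) :
    ∑ z ∈ D, w z * g z ((nxt U t i e).2 z) = ∑ z ∈ D, w z * g z (t.2 z) +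
      if t.1 ∈ D then w t.1 * (g t.1 (U.nx t.1 (t.2 t.1) i) - g t.1 (t.2 t.1)) else 0 := by
  rw [← sub_eq_iff_eq_add', ← Finset.sum_sub_distrib]
  have h : ∀ z ∈ D, w z * g z ((nxt U t i e).2 z) - w z * g z (t.2 z) =
      if z = t.1 then w t.1 * (g t.1 (U.nx t.1 (t.2 t.1) i) - g t.1 (t.2 t.1)) else 0 := by
    intro z _
    by_cases hz : z = t.1
    · rw [if_pos hz, hz, nxt_self]
      ring
    · rw [if_neg hz, nxt_of_ne _ _ _ hz, sub_self]
  rw [Finset.sum_congr rfl h, Finset.sum_ite_eq']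

theorem INC : INC_stmt := by
  intro E ι _ U t i e
  refine ⟨?_, ?_, ?_⟩
  · intro g D v
    unfold VV
    rw [key U t i e g D v]
    ring
  · intro φ Ψ g D v
    unfold ZZ
    have h1 : ∑ z ∈ D, v z * g z ((nxt U t i e).2 z) * (φ ((nxt U t i e).1 - z) - Ψ (nxt U t i e).1) =
        ∑ z ∈ D, (v z * (φ (t.1 + vec e - z) - Ψ (t.1 + vec e))) * g z ((nxt U t i e).2 z) := by
      refine Finset.sum_congr rfl fun z _ => ?_
      rw [Helper99.MKV.nxt_fst]
      ring
    rw [h1, key U t i e g D (fun z => v z * (φ (t.1 + vec e - z) - Ψ (t.1 + vec e)))]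
    have h2 : (∑ z ∈ D, v z * g z (t.2 z) *
        ((φ (t.1 + vec e - z) - Ψ (t.1 + vec e)) - (φ (t.1 - z) - Ψ t.1))) =
        ∑ z ∈ D, v z * (φ (t.1 + vec e - z) - Ψ (t.1 + vec e)) * g z (t.2 z) -
        ∑ z ∈ D, v z * g z (t.2 z) * (φ (t.1 - z) - Ψ t.1) := by
      rw [← Finset.sum_sub_distrib]
      refine Finset.sum_congr rfl fun z _ => ?_
      ring
    rw [h2]
    by_cases hx : t.1 ∈ D
    · simp only [if_pos hx]; ring
    · simp only [if_neg hx]; ring
  · intro g g' D D' M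
    unfold BL
    have h1 : ∑ y ∈ D, ∑ z ∈ D', M y z * g y ((nxt U t i e).2 y) * g' z ((nxt U t i e).2 z) =
        ∑ y ∈ D, (∑ z ∈ D', M y z * g' z (t.2 z)) * g y ((nxt U t i e).2 y) +
        ∑ y ∈ D, (if t.1 ∈ D' then M y t.1 * (g' t.1 (U.nx t.1 (t.2 t.1) i) - g' t.1 (t.2 t.1)) else 0) *
          g y ((nxt U t i e).2 y) := by
      rw [← Finset.sum_add_distrib]
      refine Finset.sum_congr rfl fun y _ => ?_
      rw [key U t i e g' D' (fun z => M y z * g y ((nxt U t i e).2 y)), Finset.sum_mul]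
      congr 1
      · refine Finset.sum_congr rfl fun z _ => ?_
        ring
      · by_cases hx : t.1 ∈ D'
        · simp only [if_pos hx]; ring
        · simp only [if_neg hx]; ring
    have h2 : ∑ y ∈ D, ∑ z ∈ D', M y z * g y (t.2 y) * g' z (t.2 z) =
        ∑ y ∈ D, (∑ z ∈ D', M y z * g' z (t.2 z)) * g y (t.2 y) := by
      refine Finset.sum_congr rfl fun y _ => ?_
      rw [Finset.sum_mul]
      refine Finset.sum_congr rfl fun z _ => ?_
      ring
    rw [h1, h2, key U t i e g D (fun y => ∑ z ∈ D', M y z * g' z (t.2 z)),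
      key U t i e g D (fun y => if t.1 ∈ D' then M y t.1 *
        (g' t.1 (U.nx t.1 (t.2 t.1) i) - g' t.1 (t.2 t.1)) else 0)]
    have h3 : ∑ y ∈ D, (if t.1 ∈ D' then M y t.1 *
        (g' t.1 (U.nx t.1 (t.2 t.1) i) - g' t.1 (t.2 t.1)) else 0) * g y (t.2 y) =
        if t.1 ∈ D' then (g' t.1 (U.nx t.1 (t.2 t.1) i) - g' t.1 (t.2 t.1)) *
          ∑ y ∈ D, M y t.1 * g y (t.2 y) else 0 := by
      by_cases hx : t.1 ∈ D'
      · simp only [if_pos hx]
        rw [Finset.mul_sum]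
        refine Finset.sum_congr rfl fun y _ => ?_
        ring
      · simp only [if_neg hx, zero_mul, Finset.sum_const_zero]
    rw [h3]
    by_cases hx : t.1 ∈ D
    · by_cases hx' : t.1 ∈ D'
      · simp only [if_pos hx, if_pos hx', if_pos (And.intro hx hx')]; ring
      · simp only [if_pos hx, if_neg hx', if_neg (fun h : t.1 ∈ D ∧ t.1 ∈ D' => hx' h.2)]; ring
    · simp only [if_neg hx, if_neg (fun h : t.1 ∈ D ∧ t.1 ∈ D' => hx h.1)]; ring

end Pool.Agent.Helper31.MKV
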